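import Pool.Agent.H70FM.Asym

/-!
# One member of the triple fixed

For every positive integer `a` there are infinitely many `b` prime to `a` such that `c = a + b`
exceeds `R(abc) * exp ((log log c)^2 / (1000 log log log c))`.  In particular, with the member
`a` fixed, `c > R(abc) * (log c)^A` infinitely often, for every real `A`.

The number `c` is a product of powers of `a + l` and of `1 + a i l` for `1 ≤ i ≤ n`, where `l` is a
prime of size about `(an)^(8n)`, and `b` is divisible by `l^(2n+2)`.  That the exponents can be
taken non-negative and small is a statement on all the successive minima of the lattice of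
multiplicative relations modulo `l^(2n+2)`, which is proved with explicit simultaneous
approximants (with triple nodes) of the `l`-adic logarithms of `1 + a i l` and a zero estimate
for them.
-/

theorem Pool.Agent.Results.MP_7aad9f_nt.FixedMemberExcess.result :
    ∀ a : ℕ, 1 ≤ a → ∀ X : ℕ, ∃ b c : ℕ, X < b ∧ a + b = c ∧ Nat.Coprime a b ∧
      ((∏ p ∈ (a * b * c).primeFactors, p : ℕ) : ℝ) *
        Real.exp ((1 / 1000) * Real.log (Real.log c) ^ 2 / Real.log (Real.log (Real.log c))) <
        c :=
  fun a ha X => Pool.Agent.H70FM.main a ha X
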