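import Pool.Agent.H70GH.Main

/-!
# Counterexamples to the unrefined abc inequality in all short intervals

Write `f (X) = exp ((1 / 2500) (log log X)^2 / log log log X)`, which is larger than every fixed
power of `log X`. For every real `X ≥ X0` there are coprime positive integers `a + b = c` with
`X < c ≤ X + X / f (X)` and `R (a b c) f (X) < c`. So the integers `c` which occur in triples with
`R (a b c) < c / (log c)^A` have, for every `A`, no gaps of relative length `(log c)^(-A)`.

The proof takes `c = 3 ^ s * C` in a short interval, where `C ≡ 3 ^ (-s)` modulo a prime `l` and `C`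
is coprime to `∏ (1 + 3 i l)` (a lower bound sieve), and then finds `a = ∏ (1 + 3 i l) ^ (e i)`,
smaller than `c`, with `a ≡ c` modulo `l ^ (2 n + 2)`: all successive minima of the lattice of
multiplicative relations between the `1 + 3 i l` modulo this power of `l` are bounded by
approximants of `l`-adic logarithms and a zero estimate.
-/

set_option autoImplicit false

namespace Pool.Agent.Results.MP_7aad9f_nt.GoodTriplesShortIntervals

/-- the radical of `m`: the product of the distinct primes dividing `m` -/
def R (m : ℕ) : ℕ := ∏ p ∈ m.primeFactors, p

/-- **Theorem.** There is `X0` such that for every real `X ≥ X0` there are coprime positive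
integers `a + b = c` with `X < c ≤ X + X exp (-(1/2500) (log log X)^2 / log log log X)` and
`R (a b c) exp ((1/2500) (log log X)^2 / log log log X) < c`. -/
theorem result : ∃ X0 : ℝ, ∀ X : ℝ, X0 ≤ X → ∃ a b c : ℕ, 0 < a ∧ 0 < b ∧ Nat.Coprime a b ∧
    a + b = c ∧ X < c ∧
    (c : ℝ) ≤ X + X * Real.exp (-((1 / 2500) * Real.log (Real.log X) ^ 2 /
      Real.log (Real.log (Real.log X)))) ∧
    (R (a * b * c) : ℝ) * Real.exp ((1 / 2500) * Real.log (Real.log X) ^ 2 /
      Real.log (Real.log (Real.log X))) < c :=
  Pool.Agent.H70GH.main

end Pool.Agent.Results.MP_7aad9f_nt.GoodTriplesShortIntervals
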