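import Pool.Agent.R479.DA.Frac
import Pool.Agent.H70HD.CaseB
import Pool.Agent.H70HD.Sys

/-!
# The abc inequality along rational approximations: the Hausdorff dimension

For `1 < lam ≤ 3`, `τ > 0` and `B > 0` the set of the real numbers `ξ` in `(a, b)` which have
infinitely many approximations `|ξ - p / q| ≤ q ^ (-τ)` by reduced fractions in `(0, 1)` with
`R (p (q - p) q) ≤ B q ^ lam` has Hausdorff dimension at least `min 1 ((lam - 1) / τ)`, with
equality for `lam ≥ 2`.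
-/

set_option autoImplicit false

namespace Pool.Agent.Results.MP_7aad9f_nt.HausdorffDimension

open MeasureTheory Set Metric
open scoped ENNReal NNReal

/-- the radical of `m`: the product of the distinct primes dividing `m` -/
def R (m : ℕ) : ℕ := ∏ p ∈ m.primeFactors, p

/-- the pairs `(p, q)` of coprime integers with `0 < p < q`, `|ξ - p / q| ≤ q ^ (-τ)` and
`R (p (q - p) q) ≤ B q ^ lam` -/
def Exceptions (τ lam B ξ : ℝ) : Set (ℕ × ℕ) :=
  {t | 0 < t.1 ∧ t.1 < t.2 ∧ Nat.Coprime t.1 t.2 ∧ |ξ - (t.1 : ℝ) / t.2| ≤ (t.2 : ℝ) ^ (-τ) ∧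
    (R (t.1 * (t.2 - t.1) * t.2) : ℝ) ≤ B * (t.2 : ℝ) ^ lam}

/-- the real numbers with infinitely many such approximations -/
def E (τ lam B : ℝ) : Set ℝ := {ξ | (Exceptions τ lam B ξ).Infinite}

theorem sub_E (τ τ' lam lam' B : ℝ) (hlam : lam' < lam) (hτ : τ ≤ τ') (hB : 0 < B) :
    {ξ | ∀ j, ξ ∈ Pool.Agent.H70HD.VV τ' lam' 1 j} ⊆ E τ lam B := by
  intro ξ hξ
  simp only [mem_ofPred_eq] at hξ
  show (Exceptions τ lam B ξ).Infinite
  intro hfin
  obtain ⟨C, hC⟩ := (hfin.image (fun t : ℕ × ℕ => t.2)).bddAbove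
  -- a size beyond which the change of the constant is harmless
  have ht : Filter.Tendsto (fun n : ℕ => (n : ℝ) ^ (lam - lam')) Filter.atTop Filter.atTop :=
    (tendsto_rpow_atTop (by linarith)).comp tendsto_natCast_atTop_atTop
  obtain ⟨n0, hn0⟩ := Filter.eventually_atTop.1 (ht.eventually_ge_atTop (1 / B))
  obtain ⟨p, q, h1, h2, h3, h4, h5, h6⟩ := hξ (max n0 (C + 2))
  have hq0 : 0 < q := by omega
  have hq1 : (1 : ℝ) ≤ q := by exact_mod_cast hq0
  have hqpos : (0 : ℝ) < q := by linarith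
  have h7 : 1 / B ≤ (q : ℝ) ^ (lam - lam') := hn0 q ((le_max_left _ _).trans h1)
  have hmem : (p, q) ∈ Exceptions τ lam B ξ := by
    refine ⟨h2, h3, h4, ?_, ?_⟩
    · refine h5.trans ?_
      exact Real.rpow_le_rpow_of_exponent_le hq1 (by linarith)
    · refine h6.trans ?_
      simp only
      rw [one_mul]
      have e1 : (q : ℝ) ^ lam = (q : ℝ) ^ lam' * (q : ℝ) ^ (lam - lam') := by
        rw [← Real.rpow_add hqpos]; congr 1; ring
      rw [e1]
      rw [div_le_iff₀ hB] at h7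
      have e2 : 0 < (q : ℝ) ^ lam' := by positivity
      calc (q : ℝ) ^ lam' = (q : ℝ) ^ lam' * 1 := by ring
        _ ≤ (q : ℝ) ^ lam' * ((q : ℝ) ^ (lam - lam') * B) :=
            mul_le_mul_of_nonneg_left h7 e2.le
        _ = B * ((q : ℝ) ^ lam' * (q : ℝ) ^ (lam - lam')) := by ring
  have h8 : q ≤ C := hC (mem_image_of_mem _ hmem)
  have h9 : C + 2 ≤ q := (le_max_right _ _).trans h1
  omega

/-- the lower bound away from the two special exponents -/
theorem lower_aux (lam τ s a b : ℝ) (h1 : 1 < lam) (h3 : lam < 3) (h2 : lam ≠ 2)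
    (hτ : lam - 1 ≤ τ) (ha : 0 ≤ a) (hab : a < b) (hb : b ≤ 1) (hs : 0 < s)
    (hs2 : s < (lam - 1) / τ) :
    ENNReal.ofReal s ≤ dimH ({ξ | ∀ j, ξ ∈ Pool.Agent.H70HD.VV τ lam 1 j} ∩ Ioo a b) := by
  have hτ0 : 0 < τ := by linarith
  have hσ : 0 < (lam - 1) / τ := by
    have : 0 < lam - 1 := by linarith
    positivity
  have hσ1 : (lam - 1) / τ ≤ 1 := by rw [div_le_one hτ0]; exact hτ
  refine Pool.Agent.H70HD.dim_of_system _ ((lam - 1) / τ) 288
    ((6 : ℝ) ^ (-(τ / (lam - 1))) / 8) hσ hσ1 (by norm_num) (by positivity) a b hab ?_ s hs hs2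
  intro x R0 hR0 hball j K0 δ hδ
  rcases lt_or_gt_of_ne h2 with h | h
  · obtain ⟨N, r, F, e1, e2, e3, e4, e5, e6, e7, e8, e9⟩ :=
      Pool.Agent.H70HD.caseA lam τ h1 h hτ a b ha hb x R0 hR0 hball j K0 δ hδ
    refine ⟨N, r, F, e1, e2, e3, e4, e5, e6, ?_, e8, e9⟩
    refine le_trans ?_ e7
    have : 0 < R0 * N := by positivity
    linarith
  · exact Pool.Agent.H70HD.caseB lam τ h h3 hτ a b ha hb x R0 hR0 hball j K0 δ hδ

theorem lower (lam τ B a b : ℝ) (h1 : 1 < lam) (h3 : lam ≤ 3) (hτ : 0 < τ) (hB : 0 < B)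
    (ha : 0 ≤ a) (hab : a < b) (hb : b ≤ 1) :
    ENNReal.ofReal (min 1 ((lam - 1) / τ)) ≤ dimH (E τ lam B ∩ Ioo a b) := by
  have hl : 0 < lam - 1 := by linarith
  refine le_of_forall_lt fun c hc => ?_
  have hctop : c ≠ ⊤ := hc.ne_top
  have hc' : c.toReal < min 1 ((lam - 1) / τ) := by
    have hpos : 0 < min 1 ((lam - 1) / τ) := by
      rw [lt_min_iff]; exact ⟨one_pos, by positivity⟩
    exact (ENNReal.lt_ofReal_iff_toReal_lt hctop).1 hc
  -- room between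
  obtain ⟨s, hs1, hs2⟩ := exists_between hc'
  have hs0 : 0 < s := ENNReal.toReal_nonneg.trans_lt hs1
  have hsone : s < 1 := hs2.trans_le (min_le_left _ _)
  have hslt : s * τ < lam - 1 := by
    have := hs2.trans_le (min_le_right _ _)
    rwa [lt_div_iff₀ hτ] at this
  -- the exponent `lam'` with `s τ < lam' - 1 ≤ τ`, `lam' < lam`, `lam' ≠ 2`
  have hgap : s * τ < min (lam - 1) τ := by
    rw [lt_min_iff]
    exact ⟨hslt, by nlinarith⟩
  obtain ⟨m, hm1, hm2⟩ : ∃ m : ℝ, s * τ < m ∧ m < min (lam - 1) τ ∧ m ≠ 1 := by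
    obtain ⟨m1, hm1, hm2⟩ := exists_between hgap
    by_cases hm : m1 = 1
    · obtain ⟨m2, hm3, hm4⟩ := exists_between hm1
      exact ⟨m2, hm3, hm4.trans hm2, by rw [hm] at hm4; exact hm4.ne⟩
    · exact ⟨m1, hm1, hm2, hm⟩
  obtain ⟨hm2, hm3⟩ := hm2
  rw [lt_min_iff] at hm2
  have hm0 : 0 < m := by
    have : 0 < s * τ := by positivity
    linarith
  have hlow := lower_aux (m + 1) τ s a b (by linarith) (by linarith [hm2.1])
    (fun h => hm3 (by linarith)) (by linarith [hm2.2]) ha hab hb hs0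
    (by rw [lt_div_iff₀ hτ]; linarith)
  have hsub := sub_E τ τ lam (m + 1) B (by linarith [hm2.1]) le_rfl hB
  calc c < ENNReal.ofReal s := by
        rw [ENNReal.lt_ofReal_iff_toReal_lt hctop]; exact hs1
    _ ≤ dimH ({ξ | ∀ j, ξ ∈ Pool.Agent.H70HD.VV τ (m + 1) 1 j} ∩ Ioo a b) := hlow
    _ ≤ dimH (E τ lam B ∩ Ioo a b) := dimH_mono (inter_subset_inter_left _ hsub)

theorem exc_eq (τ lam B ξ : ℝ) : Exceptions τ lam B ξ =
    {t | t ∈ Pool.Agent.R479.DA.Sm B lam ∧ |ξ - (t.1 : ℝ) / t.2| ≤ (t.2 : ℝ) ^ (-τ)} := by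
  ext ⟨p, q⟩
  constructor
  · rintro ⟨h1, h2, h3, h4, h5⟩
    simp only at h1 h2 h3 h4 h5
    refine ⟨⟨h1, h2, h3, ?_⟩, h4⟩
    simp only
    rw [show p * q * (q - p) = p * (q - p) * q by ring]
    exact h5
  · rintro ⟨⟨h1, h2, h3, h5⟩, h4⟩
    simp only at h1 h2 h3 h4 h5
    refine ⟨h1, h2, h3, h4, ?_⟩
    simp only
    rw [show p * (q - p) * q = p * q * (q - p) by ring]
    exact h5

theorem upper (lam τ B : ℝ) (h2 : 2 ≤ lam) (hτ : 0 < τ) :
    dimH (E τ lam B) ≤ ENNReal.ofReal (min 1 ((lam - 1) / τ)) := by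
  have h := Pool.Agent.R479.DA.dim_sm B lam τ (by linarith) hτ
  have hF : Pool.Agent.W221.ABC7.Fx lam = lam - 1 := by
    unfold Pool.Agent.W221.ABC7.Fx
    split_ifs <;> linarith
  rw [hF] at h
  have h' : dimH (E τ lam B) ≤ ENNReal.ofReal ((lam - 1) / τ) := by
    refine le_trans (dimH_mono fun ξ hξ => ?_) h
    simp only [Set.mem_ofPred_eq] at hξ ⊢
    have hξ' : (Exceptions τ lam B ξ).Infinite := hξ
    rw [exc_eq] at hξ'
    exact hξ'
  have h1 : dimH (E τ lam B) ≤ ENNReal.ofReal 1 := by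
    rw [ENNReal.ofReal_one]
    refine (dimH_mono (subset_univ _)).trans (le_of_eq ?_)
    exact Real.dimH_univ
  rcases le_total 1 ((lam - 1) / τ) with hle | hle
  · rw [min_eq_left hle]; exact h1
  · rw [min_eq_right hle]; exact h'

/-- **Theorem.** Let `1 < lam ≤ 3`, `τ > 0`, `B > 0` and `0 ≤ a < b ≤ 1`. The set of the real `ξ` in
`(a, b)` for which infinitely many reduced fractions `p / q` in `(0, 1)` satisfy
`|ξ - p / q| ≤ q ^ (-τ)` and `R (p (q - p) q) ≤ B q ^ lam` has Hausdorff dimension at least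
`min 1 ((lam - 1) / τ)`, and exactly this dimension if `lam ≥ 2`. -/
theorem result (lam τ B a b : ℝ) (h1 : 1 < lam) (h3 : lam ≤ 3) (hτ : 0 < τ) (hB : 0 < B)
    (ha : 0 ≤ a) (hab : a < b) (hb : b ≤ 1) :
    ENNReal.ofReal (min 1 ((lam - 1) / τ)) ≤ dimH (E τ lam B ∩ Ioo a b) ∧
    (2 ≤ lam → dimH (E τ lam B ∩ Ioo a b) = ENNReal.ofReal (min 1 ((lam - 1) / τ))) :=
  ⟨lower lam τ B a b h1 h3 hτ hB ha hab hb, fun h2 =>
    le_antisymm ((dimH_mono inter_subset_left).trans (upper lam τ B h2 hτ))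
      (lower lam τ B a b h1 h3 hτ hB ha hab hb)⟩

end Pool.Agent.Results.MP_7aad9f_nt.HausdorffDimension
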