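import Pool.Agent.H70SH.Bal

/-!
# The exponent 1 in the abc inequality is sharp in every direction and for every shape

Let `p`, `q`, `r` be distinct primes, `α, β, γ ≥ 0` with `α + β + γ = 1`, and `0 < x < 1`. Then for a
constant `K` there are infinitely many coprime positive integers `a + b = c` with `a / c` close to
`x` and `R (a) ≤ K c ^ α`, `R (b) ≤ K c ^ β`, `R (c) ≤ K c ^ γ`; moreover `a`, `b`, `c` are divisible
by powers of `p`, `q`, `r` of size at least `c ^ (1 - α) / K`, `c ^ (1 - β) / K`, `c ^ (1 - γ) / K`.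

The proof considers the lattices of the pairs `(a, b)` with `p ^ i ∣ a`, `q ^ j ∣ b`,
`r ^ k ∣ a + b`, where `(i, j, k)` moves in the direction given by `(α, β, γ)`, and shows that
infinitely many of them are balanced (have no short vectors): otherwise the shortest vectors would
finally all be parallel to one vector.
-/

set_option autoImplicit false

namespace Pool.Agent.Results.MP_7aad9f_nt.SharpEveryDirection

open Pool.Agent.H70SH

/-- the radical of `m`: the product of the distinct primes dividing `m` -/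
def R (m : ℕ) : ℕ := ∏ p ∈ m.primeFactors, p

theorem R_le (m K : ℕ) (hK : K ≠ 0) (h : ∀ p ∈ m.primeFactors, p ∣ K) : R m ≤ K := by
  have h1 : m.primeFactors ⊆ K.primeFactors := fun p hp =>
    Nat.mem_primeFactors.mpr ⟨Nat.prime_of_mem_primeFactors hp, h p hp, hK⟩
  have h2 : ∏ p ∈ K.primeFactors, p ∣ K := Nat.prod_primeFactors_dvd K
  have h3 : R m ∣ K := (Finset.prod_dvd_prod_of_subset _ _ _ h1).trans h2
  exact Nat.le_of_dvd (Nat.pos_of_ne_zero hK) h3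

/-- the radical of a number divisible by a power of `p` -/
theorem R_bound {p i m c : ℕ} (hp : p.Prime) (hm : 0 < m) (hmc : m ≤ c) (hd : p ^ i ∣ m)
    (α K : ℝ) (hc : (c : ℝ) ^ (1 - α) ≤ K * ((p ^ i : ℕ) : ℝ)) :
    (R m : ℝ) ≤ (p * K) * (c : ℝ) ^ α := by
  obtain ⟨A, hA⟩ := hd
  have hA0 : A ≠ 0 := by rintro rfl; rw [mul_zero] at hA; omega
  have h1 : R m ≤ p * A := by
    refine R_le m (p * A) (mul_ne_zero hp.ne_zero hA0) ?_
    intro l hl
    have hlp := Nat.prime_of_mem_primeFactors hl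
    have hld := Nat.dvd_of_mem_primeFactors hl
    rw [hA] at hld
    rcases (Nat.Prime.dvd_mul hlp).1 hld with h | h
    · exact Dvd.dvd.mul_right (hlp.dvd_of_dvd_pow h) _
    · exact Dvd.dvd.mul_left h _
  have hcpos : (0 : ℝ) < c := by
    have : 0 < c := by omega
    exact_mod_cast this
  have hP0 : (0 : ℝ) < ((p ^ i : ℕ) : ℝ) := by
    have : 0 < p ^ i := pow_pos hp.pos i
    exact_mod_cast this
  have h2 : (R m : ℝ) * ((p ^ i : ℕ) : ℝ) ≤ p * c := by
    have h3 : R m * p ^ i ≤ p * c := by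
      calc R m * p ^ i ≤ (p * A) * p ^ i := Nat.mul_le_mul_right _ h1
        _ = p * (p ^ i * A) := by ring
        _ ≤ p * c := by rw [← hA]; exact Nat.mul_le_mul_left _ hmc
    exact_mod_cast h3
  have h4 : (c : ℝ) = (c : ℝ) ^ (1 - α) * (c : ℝ) ^ α := by
    rw [← Real.rpow_add hcpos]
    have : 1 - α + α = 1 := by ring
    rw [this, Real.rpow_one]
  have h5 : (R m : ℝ) * ((p ^ i : ℕ) : ℝ) ≤ ((p * K) * (c : ℝ) ^ α) * ((p ^ i : ℕ) : ℝ) := by
    refine h2.trans ?_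
    conv_lhs => rw [h4]
    have h6 : (c : ℝ) ^ (1 - α) * (c : ℝ) ^ α ≤ (K * ((p ^ i : ℕ) : ℝ)) * (c : ℝ) ^ α :=
      mul_le_mul_of_nonneg_right hc (by positivity)
    calc (p : ℝ) * ((c : ℝ) ^ (1 - α) * (c : ℝ) ^ α)
        ≤ p * ((K * ((p ^ i : ℕ) : ℝ)) * (c : ℝ) ^ α) :=
          mul_le_mul_of_nonneg_left h6 (by positivity)
      _ = _ := by ring
  exact le_of_mul_le_mul_right h5 hP0

theorem size_bound {p : ℕ} (hp : 2 ≤ p) {α t : ℝ} (hα : 0 ≤ α) (hα1 : α ≤ 1) (n c : ℕ)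
    (ht : 1 ≤ t) (hc0 : 0 < c) (hc : (c : ℝ) ≤ t * Real.exp n) :
    (c : ℝ) ^ (1 - α) ≤ (t * p) * ((p ^ ex p ((1 - α) * n) : ℕ) : ℝ) := by
  have hcpos : (0 : ℝ) < c := by exact_mod_cast hc0
  have h1 : (c : ℝ) ^ (1 - α) ≤ (t * Real.exp n) ^ (1 - α) :=
    Real.rpow_le_rpow hcpos.le hc (by linarith)
  have h2 : (t * Real.exp n) ^ (1 - α) = t ^ (1 - α) * Real.exp ((1 - α) * n) := by
    rw [Real.mul_rpow (by linarith) (Real.exp_pos _).le, ← Real.exp_mul]
    congr 2; ring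
  have h3 : t ^ (1 - α) ≤ t := by
    conv_rhs => rw [← Real.rpow_one t]
    exact Real.rpow_le_rpow_of_exponent_le ht (by linarith)
  have h4 := lt_pow_ex (p := p) hp (θ := (1 - α) * n)
  rw [h2] at h1
  refine h1.trans ?_
  calc t ^ (1 - α) * Real.exp ((1 - α) * n)
      ≤ t * (p * ((p ^ ex p ((1 - α) * n) : ℕ) : ℝ)) :=
        mul_le_mul h3 h4.le (Real.exp_pos _).le (by linarith)
    _ = _ := by ring

/-- a point of the lattice with the right primes removed -/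
theorem exists_offset (p q r : ℕ) (hp : p.Prime) (hq : q.Prime) (hr : r.Prime) (hpq : p ≠ q)
    (hpr : p ≠ r) (hqr : q ≠ r) (i j k : ℕ) :
    ∃ w0 : ℤ × ℤ, Lat (p ^ i) (q ^ j) (r ^ k) w0 ∧ ¬ (p : ℤ) ∣ w0.2 ∧ ¬ (q : ℤ) ∣ w0.1 ∧
      ¬ (r : ℤ) ∣ w0.1 := by
  have c1 : Nat.Coprime (q ^ j) (r ^ k) :=
    Nat.Coprime.pow _ _ ((Nat.coprime_primes hq hr).2 hqr)
  have c2 : Nat.Coprime (r ^ k) p :=
    Nat.Coprime.pow_left _ ((Nat.coprime_primes hr hp).2 (Ne.symm hpr))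
  -- `q^j y ≡ -p^i mod r^k`
  obtain ⟨y, hy⟩ : ∃ y : ℤ, ((r ^ k : ℕ) : ℤ) ∣ (q ^ j : ℕ) * y + (p ^ i : ℕ) := by
    obtain ⟨u, v, huv⟩ := Nat.isCoprime_iff_coprime.2 c1
    refine ⟨-(u * (p ^ i : ℕ)), (v * (p ^ i : ℕ)), ?_⟩
    linear_combination (-((p ^ i : ℕ) : ℤ)) * huv
  obtain ⟨u, v, huv⟩ := Nat.isCoprime_iff_coprime.2 c2
  -- b1 = y * (v p) + u r^k
  refine ⟨((p ^ i : ℕ), (q ^ j : ℕ) * (y * (v * p) + u * (r ^ k : ℕ))), ⟨dvd_rfl, dvd_mul_right _ _,
    ?_⟩, ?_, ?_, ?_⟩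
  · show ((r ^ k : ℕ) : ℤ) ∣ (p ^ i : ℕ) + (q ^ j : ℕ) * (y * (v * p) + u * (r ^ k : ℕ))
    have e : ((p ^ i : ℕ) : ℤ) + (q ^ j : ℕ) * (y * (v * p) + u * (r ^ k : ℕ)) =
        ((q ^ j : ℕ) * y + (p ^ i : ℕ)) + (r ^ k : ℕ) * ((q ^ j : ℕ) * (u - y * u)) := by
      linear_combination ((q ^ j : ℕ) : ℤ) * y * huv
    rw [e]
    exact dvd_add hy (dvd_mul_right _ _)
  · show ¬ (p : ℤ) ∣ (q ^ j : ℕ) * (y * (v * p) + u * (r ^ k : ℕ))
    intro h
    have hpZ : Prime (p : ℤ) := Nat.prime_iff_prime_int.1 hp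
    rcases hpZ.dvd_mul.1 h with h | h
    · have h1 : p ∣ q ^ j := Int.natCast_dvd_natCast.1 h
      exact hpq ((Nat.prime_dvd_prime_iff_eq hp hq).1 (hp.dvd_of_dvd_pow h1))
    · have h2 : (p : ℤ) ∣ 1 := by
        have e : (1 : ℤ) = (y * (v * p) + u * (r ^ k : ℕ)) + p * (v - y * v) := by
          linear_combination -huv
        rw [e]
        exact dvd_add h (dvd_mul_right _ _)
      exact hpZ.not_dvd_one h2
  · show ¬ (q : ℤ) ∣ (p ^ i : ℕ)
    intro h
    have h1 : q ∣ p ^ i := Int.natCast_dvd_natCast.1 h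
    exact hpq ((Nat.prime_dvd_prime_iff_eq hq hp).1 (hq.dvd_of_dvd_pow h1)).symm
  · show ¬ (r : ℤ) ∣ (p ^ i : ℕ)
    intro h
    have h1 : r ∣ p ^ i := Int.natCast_dvd_natCast.1 h
    exact hpr ((Nat.prime_dvd_prime_iff_eq hr hp).1 (hr.dvd_of_dvd_pow h1)).symm

/-- **Theorem.** Let `p`, `q`, `r` be distinct primes, `α, β, γ ≥ 0`, `α + β + γ = 1`, `0 < x < 1`
and `ε > 0`. There is a `K` such that for every `N` there are coprime positive integers `a + b = c`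
with `c > N` and `|a / c - x| < ε` such that `R (a) ≤ K c ^ α`, `R (b) ≤ K c ^ β` and
`R (c) ≤ K c ^ γ`, and powers `p ^ i ∣ a`, `q ^ j ∣ b` and `r ^ k ∣ c` with
`c ^ (1 - α) ≤ K p ^ i`, `c ^ (1 - β) ≤ K q ^ j` and `c ^ (1 - γ) ≤ K r ^ k`. -/
theorem result (p q r : ℕ) (hp : p.Prime) (hq : q.Prime) (hr : r.Prime) (hpq : p ≠ q)
    (hpr : p ≠ r) (hqr : q ≠ r) (α β γ : ℝ) (hα : 0 ≤ α) (hβ : 0 ≤ β) (hγ : 0 ≤ γ)
    (hsum : α + β + γ = 1) (x ε : ℝ) (hx0 : 0 < x) (hx1 : x < 1) (hε : 0 < ε) :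
    ∃ K : ℝ, ∀ N : ℕ, ∃ a b c i j k : ℕ, 0 < a ∧ 0 < b ∧ Nat.Coprime a b ∧ a + b = c ∧ N < c ∧
      |(a : ℝ) / c - x| < ε ∧
      (R a : ℝ) ≤ K * (c : ℝ) ^ α ∧ (R b : ℝ) ≤ K * (c : ℝ) ^ β ∧ (R c : ℝ) ≤ K * (c : ℝ) ^ γ ∧
      p ^ i ∣ a ∧ q ^ j ∣ b ∧ r ^ k ∣ c ∧
      (c : ℝ) ^ (1 - α) ≤ K * (p : ℝ) ^ i ∧ (c : ℝ) ^ (1 - β) ≤ K * (q : ℝ) ^ j ∧
      (c : ℝ) ^ (1 - γ) ≤ K * (r : ℝ) ^ k := by
  have hp2 := hp.two_le
  have hq2 := hq.two_le
  have hr2 := hr.two_le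
  have hpR : (2 : ℝ) ≤ p := by exact_mod_cast hp2
  have hqR : (2 : ℝ) ≤ q := by exact_mod_cast hq2
  have hrR : (2 : ℝ) ≤ r := by exact_mod_cast hr2
  have hpqr : (0 : ℝ) < p * q * r := by positivity
  obtain ⟨δ, hδ⟩ : ∃ δ : ℝ, δ = 1 / (3 * (p * q * r)) := ⟨_, rfl⟩
  have hδ0 : 0 < δ := by rw [hδ]; positivity
  have hpqr1 : (8 : ℝ) ≤ p * q * r := by
    have : (4 : ℝ) ≤ p * q := by nlinarith
    nlinarith
  have hδ1 : δ ≤ 1 := by
    rw [hδ, div_le_one (by positivity)]; linarith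
  -- precision
  obtain ⟨η, hη⟩ : ∃ η : ℝ, η = min (min x (1 - x)) (min ε 1) / 8 := ⟨_, rfl⟩
  have hηx : 8 * η ≤ x := by
    rw [hη]; have := (min_le_left (min x (1 - x)) (min ε 1)).trans (min_le_left _ _); linarith
  have hηx' : 8 * η ≤ 1 - x := by
    rw [hη]; have := (min_le_left (min x (1 - x)) (min ε 1)).trans (min_le_right _ _); linarith
  have hηε : 8 * η ≤ ε := by
    rw [hη]; have := (min_le_right (min x (1 - x)) (min ε 1)).trans (min_le_left _ _); linarith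
  have hη1 : 8 * η ≤ 1 := by
    rw [hη]; have := (min_le_right (min x (1 - x)) (min ε 1)).trans (min_le_right _ _); linarith
  have hη0 : 0 < η := by
    rw [hη]
    have : 0 < min (min x (1 - x)) (min ε 1) :=
      lt_min (lt_min hx0 (by linarith)) (lt_min hε one_pos)
    positivity
  obtain ⟨M, hM⟩ : ∃ M : ℕ, M = p * q * r := ⟨_, rfl⟩
  have hMR : (M : ℝ) = p * q * r := by rw [hM]; push_cast; ring
  have hM0 : 0 < M := by rw [hM]; exact Nat.mul_pos (Nat.mul_pos hp.pos hq.pos) hr.pos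
  obtain ⟨t, ht⟩ : ∃ t : ℝ, t = 10 * M / (δ * η) := ⟨_, rfl⟩
  have ht1 : 1 ≤ t := by
    rw [ht, hMR, one_le_div (by positivity)]
    have : δ * η ≤ 1 * 1 := mul_le_mul hδ1 (by linarith) hη0.le zero_le_one
    linarith
  have hηt : η * t = 10 * M / δ := by rw [ht]; field_simp
  obtain ⟨K, hK⟩ : ∃ K : ℝ, K = (p * q * r) * (2 * t * (p * q * r)) := ⟨_, rfl⟩
  refine ⟨K, fun N => ?_⟩
  -- the level
  have htend : Filter.Tendsto (fun n : ℕ => Real.exp ((2 : ℝ) / 3 * n)) Filter.atTop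
      Filter.atTop := by
    apply Real.tendsto_exp_atTop.comp
    exact Filter.Tendsto.const_mul_atTop (by norm_num) tendsto_natCast_atTop_atTop
  obtain ⟨n0, hn0⟩ := Filter.eventually_atTop.1
    (htend.eventually_gt_atTop (N * ((p : ℝ) * q * r)))
  obtain ⟨n, hn, hbal⟩ := balanced p q r hp hq hr hpq hpr hqr α β γ hα hβ hγ hsum n0
  have hbig := hn0 n hn
  rw [← hδ] at hbal
  obtain ⟨i, hi⟩ : ∃ i : ℕ, i = ex p ((1 - α) * n) := ⟨_, rfl⟩
  obtain ⟨j, hj⟩ : ∃ j : ℕ, j = ex q ((1 - β) * n) := ⟨_, rfl⟩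
  obtain ⟨k, hk⟩ : ∃ k : ℕ, k = ex r ((1 - γ) * n) := ⟨_, rfl⟩
  have hE1 : 1 ≤ Real.exp n := Real.one_le_exp (by positivity)
  have hE0 : 0 < Real.exp n := Real.exp_pos _
  have hα1 : α ≤ 1 := by linarith
  have hβ1 : β ≤ 1 := by linarith
  have hγ1 : γ ≤ 1 := by linarith
  have hD : ((p ^ i * q ^ j * r ^ k : ℕ) : ℝ) ≤ Real.exp n ^ 2 := by
    have e1 := pow_ex_le hp2 (show 0 ≤ (1 - α) * n by
      have : 0 ≤ 1 - α := by linarith
      positivity)
    have e2 := pow_ex_le hq2 (show 0 ≤ (1 - β) * n by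
      have : 0 ≤ 1 - β := by linarith
      positivity)
    have e3 := pow_ex_le hr2 (show 0 ≤ (1 - γ) * n by
      have : 0 ≤ 1 - γ := by linarith
      positivity)
    rw [← hi] at e1
    rw [← hj] at e2
    rw [← hk] at e3
    have e4 : Real.exp n ^ 2 =
        Real.exp ((1 - α) * n) * Real.exp ((1 - β) * n) * Real.exp ((1 - γ) * n) := by
      rw [sq, ← Real.exp_add, ← Real.exp_add, ← Real.exp_add]
      congr 1
      have : (1 - α) * (n : ℝ) + (1 - β) * n + (1 - γ) * n = (3 - (α + β + γ)) * n := by ring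
      rw [this, hsum]; ring
    rw [e4]
    rw [Nat.cast_mul, Nat.cast_mul]
    exact mul_le_mul (mul_le_mul e1 e2 (by positivity) (Real.exp_pos _).le) e3 (by positivity)
      (by positivity)
  obtain ⟨v, w, hv, hw, hdet, b1, b2, b3, b4⟩ := two_vectors (pow_pos hp.pos i) (pow_pos hq.pos j)
    (pow_pos hr.pos k) δ (Real.exp n) hδ0 hE1 hδ1 hD (by rw [hi, hj, hk]; exact hbal)
  obtain ⟨w0, hw0, o1, o2, o3⟩ := exists_offset p q r hp hq hr hpq hpr hqr i j k
  obtain ⟨H, hH⟩ : ∃ H : ℝ, H = t * Real.exp n := ⟨_, rfl⟩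
  have hH0 : 0 < H := by rw [hH]; positivity
  obtain ⟨y, hy, m1, m2, n1, n2⟩ := near v w w0 hv hw hw0 hdet (5 * Real.exp n / δ) b1 b2 b3 b4
    M hM0 (x * H) ((1 - x) * H)
  have herr : 2 * (M : ℝ) * (5 * Real.exp n / δ) = η * H := by
    rw [hH, ← mul_assoc, hηt]; ring
  rw [herr] at n1 n2
  rw [abs_le] at n1 n2
  have hy1 : (7 : ℝ) * (η * H) ≤ y.1 := by nlinarith [n1.1]
  have hy2 : (7 : ℝ) * (η * H) ≤ y.2 := by nlinarith [n2.1]
  have hηH : 0 < η * H := by positivity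
  have hy1' : 0 < y.1 := by
    have : (0 : ℝ) < y.1 := by linarith
    exact_mod_cast this
  have hy2' : 0 < y.2 := by
    have : (0 : ℝ) < y.2 := by linarith
    exact_mod_cast this
  -- pass to natural numbers
  obtain ⟨a, ha⟩ := Int.eq_ofNat_of_zero_le hy1'.le
  obtain ⟨b, hb⟩ := Int.eq_ofNat_of_zero_le hy2'.le
  have ha0 : 0 < a := by rw [ha] at hy1'; exact_mod_cast hy1'
  have hb0 : 0 < b := by rw [hb] at hy2'; exact_mod_cast hy2'
  rw [ha] at n1 m1
  rw [hb] at n2 m2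
  obtain ⟨l1, l2, l3⟩ := hy
  rw [ha] at l1 l3
  rw [hb] at l2 l3
  have l1' : p ^ i ∣ a := by exact_mod_cast l1
  have l2' : q ^ j ∣ b := by exact_mod_cast l2
  have l3' : r ^ k ∣ a + b := by exact_mod_cast l3
  have n1a : (a : ℝ) - x * H ≤ η * H := by exact_mod_cast n1.2
  have n1b : -(η * H) ≤ (a : ℝ) - x * H := by exact_mod_cast n1.1
  have n2a : (b : ℝ) - (1 - x) * H ≤ η * H := by exact_mod_cast n2.2
  have n2b : -(η * H) ≤ (b : ℝ) - (1 - x) * H := by exact_mod_cast n2.1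
  -- divisibility by the three primes
  have f1 : ¬ p ∣ b := by
    intro h
    apply o1
    have h1 : (p : ℤ) ∣ (b : ℤ) - w0.2 := by
      refine dvd_trans ?_ m2
      rw [hM]; push_cast
      exact Dvd.dvd.mul_right (dvd_mul_right _ _) _
    have h2 : (p : ℤ) ∣ (b : ℤ) := Int.natCast_dvd_natCast.2 h
    have := dvd_sub h2 h1
    simpa using this
  have f2 : ¬ q ∣ a := by
    intro h
    apply o2
    have h1 : (q : ℤ) ∣ (a : ℤ) - w0.1 := by
      refine dvd_trans ?_ m1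
      rw [hM]; push_cast
      exact Dvd.dvd.mul_right (dvd_mul_left _ _) _
    have h2 : (q : ℤ) ∣ (a : ℤ) := Int.natCast_dvd_natCast.2 h
    have := dvd_sub h2 h1
    simpa using this
  have f3 : ¬ r ∣ a := by
    intro h
    apply o3
    have h1 : (r : ℤ) ∣ (a : ℤ) - w0.1 := by
      refine dvd_trans ?_ m1
      rw [hM]; push_cast
      exact dvd_mul_left _ _
    have h2 : (r : ℤ) ∣ (a : ℤ) := Int.natCast_dvd_natCast.2 h
    have := dvd_sub h2 h1
    simpa using this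
  -- divide by the greatest common divisor
  obtain ⟨g, hg⟩ : ∃ g : ℕ, g = Nat.gcd a b := ⟨_, rfl⟩
  have hg0 : 0 < g := by rw [hg]; exact Nat.gcd_pos_of_pos_left _ ha0
  have hga : g ∣ a := by rw [hg]; exact Nat.gcd_dvd_left _ _
  have hgb : g ∣ b := by rw [hg]; exact Nat.gcd_dvd_right _ _
  have hcop : Nat.Coprime (a / g) (b / g) := by
    rw [hg]; exact Nat.coprime_div_gcd_div_gcd (by rw [← hg]; exact hg0)
  obtain ⟨a', ha'⟩ := hga
  obtain ⟨b', hb'⟩ := hgb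
  rw [ha', hb', Nat.mul_div_cancel_left _ hg0, Nat.mul_div_cancel_left _ hg0] at hcop
  have ha'0 : 0 < a' := Nat.pos_of_ne_zero (by rintro rfl; omega)
  have hb'0 : 0 < b' := Nat.pos_of_ne_zero (by rintro rfl; omega)
  have gp : Nat.Coprime (p ^ i) g := by
    apply Nat.Coprime.pow_left
    rw [Nat.Prime.coprime_iff_not_dvd hp]
    intro h; apply f1; rw [hb']; exact Dvd.dvd.mul_right h _
  have gq : Nat.Coprime (q ^ j) g := by
    apply Nat.Coprime.pow_left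
    rw [Nat.Prime.coprime_iff_not_dvd hq]
    intro h; apply f2; rw [ha']; exact Dvd.dvd.mul_right h _
  have gr : Nat.Coprime (r ^ k) g := by
    apply Nat.Coprime.pow_left
    rw [Nat.Prime.coprime_iff_not_dvd hr]
    intro h; apply f3; rw [ha']; exact Dvd.dvd.mul_right h _
  have d1 : p ^ i ∣ a' := gp.dvd_of_dvd_mul_left (by rw [← ha']; exact l1')
  have d2 : q ^ j ∣ b' := gq.dvd_of_dvd_mul_left (by rw [← hb']; exact l2')
  have d3 : r ^ k ∣ a' + b' := gr.dvd_of_dvd_mul_left (by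
    have : g * (a' + b') = a + b := by rw [ha', hb']; ring
    rw [this]; exact l3')
  have hg1R : (1 : ℝ) ≤ g := by exact_mod_cast hg0
  have haR : (a : ℝ) = g * a' := by rw [ha']; push_cast; ring
  have hbR : (b : ℝ) = g * b' := by rw [hb']; push_cast; ring
  have hcR : ((a' + b' : ℕ) : ℝ) = (a' : ℝ) + b' := by push_cast; ring
  have hc'0 : (0 : ℝ) < (a' : ℝ) + b' := by
    have h1 : (0 : ℝ) < a' := by exact_mod_cast ha'0
    have h2 : (0 : ℝ) < b' := by exact_mod_cast hb'0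
    linarith
  have hcle : ((a' + b' : ℕ) : ℝ) ≤ (2 * t) * Real.exp n := by
    rw [hcR]
    have h1 : (a' : ℝ) + b' ≤ a + b := by
      rw [haR, hbR]; nlinarith
    have h2 : (a : ℝ) + b ≤ 2 * H := by nlinarith
    rw [hH] at h2
    linarith
  have s1 := size_bound hp2 hα hα1 n (a' + b') (by linarith : 1 ≤ 2 * t) (by omega) hcle
  have s2 := size_bound hq2 hβ hβ1 n (a' + b') (by linarith : 1 ≤ 2 * t) (by omega) hcle
  have s3 := size_bound hr2 hγ hγ1 n (a' + b') (by linarith : 1 ≤ 2 * t) (by omega) hcle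
  rw [← hi] at s1
  rw [← hj] at s2
  rw [← hk] at s3
  -- constants
  have one3 : ∀ x y z : ℝ, 2 ≤ x → 2 ≤ y → 2 ≤ z → x ≤ x * (y * z) := by
    intro x y z hx hy hz
    have h1 : (1 : ℝ) ≤ y * z := one_le_mul_of_one_le_of_one_le (by linarith) (by linarith)
    calc x = x * 1 := (mul_one x).symm
      _ ≤ x * (y * z) := mul_le_mul_of_nonneg_left h1 (by linarith)
  have kp : (p : ℝ) ≤ p * q * r := by
    have := one3 p q r hpR hqR hrR
    rwa [← mul_assoc] at this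
  have kq : (q : ℝ) ≤ p * q * r := by
    have := one3 q p r hqR hpR hrR
    have e : (p : ℝ) * q * r = q * (p * r) := by ring
    rwa [e]
  have kr : (r : ℝ) ≤ p * q * r := by
    have := one3 r p q hrR hpR hqR
    have e : (p : ℝ) * q * r = r * (p * q) := by ring
    rwa [e]
  have hK1 : ∀ z : ℝ, 1 ≤ z → z ≤ p * q * r → z * (2 * t * z) ≤ K ∧ 2 * t * z ≤ K := by
    intro z hz hz'
    rw [hK]
    have h1 : 2 * t * z ≤ 2 * t * (p * q * r) := by
      apply mul_le_mul_of_nonneg_left hz'; linarith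
    have h2 : 0 ≤ 2 * t * z := by positivity
    constructor
    · exact mul_le_mul hz' h1 h2 hpqr.le
    · calc 2 * t * z = 1 * (2 * t * z) := by ring
        _ ≤ (p * q * r) * (2 * t * (p * q * r)) :=
            mul_le_mul (by linarith) h1 h2 hpqr.le
  have hcpow : ∀ z : ℝ, 0 ≤ ((a' + b' : ℕ) : ℝ) ^ z := fun z => by positivity
  refine ⟨a', b', a' + b', i, j, k, ha'0, hb'0, hcop, rfl, ?_, ?_, ?_, ?_, ?_, d1, d2, d3, ?_, ?_,
    ?_⟩
  · -- size
    have hlow : ∀ (z : ℕ) (e : ℕ) (θ : ℝ), 2 ≤ z → (z : ℝ) ≤ p * q * r → θ ≤ 1 / 3 →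
        e = ex z ((1 - θ) * n) → z ^ e ≤ a' + b' → N < a' + b' := by
      intro z e θ hz hz' hθ he hle
      have h1 := lt_pow_ex (p := z) hz (θ := (1 - θ) * n)
      rw [← he] at h1
      have h2 : Real.exp ((2 : ℝ) / 3 * n) ≤ Real.exp ((1 - θ) * n) := by
        apply Real.exp_le_exp.2
        apply mul_le_mul_of_nonneg_right (by linarith) (by positivity)
      have h3 : ((z ^ e : ℕ) : ℝ) ≤ ((a' + b' : ℕ) : ℝ) := by exact_mod_cast hle
      have h4 : (N : ℝ) * (p * q * r) < (p * q * r) * ((a' + b' : ℕ) : ℝ) := by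
        calc (N : ℝ) * (p * q * r) < z * ((z ^ e : ℕ) : ℝ) := by linarith
          _ ≤ (p * q * r) * ((a' + b' : ℕ) : ℝ) :=
              mul_le_mul hz' h3 (by positivity) hpqr.le
      have h5 : (N : ℝ) < ((a' + b' : ℕ) : ℝ) := by
        rw [mul_comm] at h4
        exact lt_of_mul_lt_mul_left h4 hpqr.le
      exact_mod_cast h5
    by_cases hA : α ≤ 1 / 3
    · exact hlow p i α hp2 kp hA hi ((Nat.le_of_dvd ha'0 d1).trans (Nat.le_add_right _ _))
    · by_cases hB : β ≤ 1 / 3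
      · exact hlow q j β hq2 kq hB hj ((Nat.le_of_dvd hb'0 d2).trans (Nat.le_add_left _ _))
      · exact hlow r k γ hr2 kr (by push Not at hA hB; linarith) hk
          (Nat.le_of_dvd (by omega) d3)
  · -- shape
    rw [hcR]
    have hgR : (0 : ℝ) < g := by linarith
    have e1 : (a' : ℝ) / (a' + b') = a / (a + b) := by
      rw [haR, hbR, ← mul_add, mul_div_mul_left _ _ hgR.ne']
    rw [e1]
    have hab : 0 < (a : ℝ) + b := by rw [haR, hbR, ← mul_add]; positivity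
    have e2 : (a : ℝ) / (a + b) - x = ((a - x * H) - x * ((a + b) - H)) / (a + b) := by
      field_simp; ring
    rw [e2, abs_div, abs_of_pos hab, div_lt_iff₀ hab]
    have h1 : H / 2 ≤ (a : ℝ) + b := by nlinarith
    have h2 : |((a : ℝ) - x * H) - x * ((a + b) - H)| ≤ 3 * (η * H) := by
      have h3 : |(a : ℝ) - x * H| ≤ η * H := abs_le.2 ⟨n1b, n1a⟩
      have h4 : |x * (((a : ℝ) + b) - H)| ≤ 2 * (η * H) := by
        rw [abs_mul, abs_of_pos hx0]
        have h5 : |((a : ℝ) + b) - H| ≤ 2 * (η * H) := by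
          rw [abs_le]; constructor <;> linarith
        calc x * |((a : ℝ) + b) - H| ≤ 1 * (2 * (η * H)) :=
              mul_le_mul hx1.le h5 (abs_nonneg _) zero_le_one
          _ = _ := one_mul _
      calc |((a : ℝ) - x * H) - x * ((a + b) - H)|
          ≤ |(a : ℝ) - x * H| + |x * (((a : ℝ) + b) - H)| := abs_sub _ _
        _ ≤ _ := by linarith
    have h6 : ε * (H / 2) ≤ ε * ((a : ℝ) + b) := mul_le_mul_of_nonneg_left h1 hε.le
    have h7 : 8 * η * H ≤ ε * H := mul_le_mul_of_nonneg_right hηε hH0.le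
    linarith
  · refine (R_bound hp ha'0 (Nat.le_add_right _ _) d1 α _ s1).trans ?_
    exact mul_le_mul_of_nonneg_right (hK1 p (by linarith) kp).1 (hcpow α)
  · refine (R_bound hq hb'0 (Nat.le_add_left _ _) d2 β _ s2).trans ?_
    exact mul_le_mul_of_nonneg_right (hK1 q (by linarith) kq).1 (hcpow β)
  · refine (R_bound hr (by omega) le_rfl d3 γ _ s3).trans ?_
    exact mul_le_mul_of_nonneg_right (hK1 r (by linarith) kr).1 (hcpow γ)
  · push_cast at s1 ⊢
    refine s1.trans ?_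
    exact mul_le_mul_of_nonneg_right (hK1 p (by linarith) kp).2 (by positivity)
  · push_cast at s2 ⊢
    refine s2.trans ?_
    exact mul_le_mul_of_nonneg_right (hK1 q (by linarith) kq).2 (by positivity)
  · push_cast at s3 ⊢
    refine s3.trans ?_
    exact mul_le_mul_of_nonneg_right (hK1 r (by linarith) kr).2 (by positivity)

end Pool.Agent.Results.MP_7aad9f_nt.SharpEveryDirection
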